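import Mathlib
import Pool.Agent.Lib.helper12.Idem
import Pool.Agent.Lib.helper12.Ladder

namespace Pool.Agent.Results.MP_44ae8d_al.Flags

open Matrix

variable {K : Type} [Field K] {n : ℕ}

/-- irreducible tridiagonal -/
def ITri (M : Matrix (Fin n) (Fin n) K) : Prop :=
  ∀ i j : Fin n, (i.val + 1 < j.val ∨ j.val + 1 < i.val → M i j = 0) ∧
    (i.val + 1 = j.val ∨ j.val + 1 = i.val → M i j ≠ 0)

/-- the matrix of `X` in the basis formed by the columns of `P` -/
def inB (P : GL (Fin n) K) (X : Matrix (Fin n) (Fin n) K) : Matrix (Fin n) (Fin n) K :=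
  (P⁻¹).val * X * P.val

def LeonardPair (X Y : Matrix (Fin n) (Fin n) K) : Prop :=
  (∃ P, (inB P X).IsDiag ∧ ITri (inB P Y)) ∧ (∃ P, (inB P Y).IsDiag ∧ ITri (inB P X))

def LeonardTriple (X Y Z : Matrix (Fin n) (Fin n) K) : Prop :=
  (∃ P, (inB P X).IsDiag ∧ ITri (inB P Y) ∧ ITri (inB P Z)) ∧
  (∃ P, (inB P Y).IsDiag ∧ ITri (inB P X) ∧ ITri (inB P Z)) ∧
  (∃ P, (inB P Z).IsDiag ∧ ITri (inB P X) ∧ ITri (inB P Y))

def tri (M : Matrix (Fin 3) (Fin 3) ℚ) : Prop :=
  ∀ i j : Fin 3, (i.val + 1 < j.val ∨ j.val + 1 < i.val → M i j = 0) ∧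
    (i.val + 1 = j.val ∨ j.val + 1 = i.val → M i j ≠ 0)

def ch (P Q X Y Z : Matrix (Fin 3) (Fin 3) ℚ) : Prop :=
  P * Q = 1 ∧ Q * P = 1 ∧ (∀ i j, i ≠ j → (Q * X * P) i j = 0) ∧ tri (Q * Y * P) ∧ tri (Q * Z * P)

noncomputable def f (K : Type) [Field K] [CharZero K] :
    Matrix (Fin 3) (Fin 3) ℚ →+* Matrix (Fin 3) (Fin 3) K := (algebraMap ℚ K).mapMatrix

theorem sm [CharZero K] (q : ℚ) (M : Matrix (Fin 3) (Fin 3) ℚ) :
    f K (q • M) = (q : K) • f K M := by
  ext i j; simp [f]

theorem third [CharZero K] {P Q X Y Z : Matrix (Fin 3) (Fin 3) ℚ} (h : ch P Q X Y Z) :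
    ∃ g : GL (Fin 3) K, (inB g (f K X)).IsDiag ∧ ITri (inB g (f K Y)) ∧ ITri (inB g (f K Z)) := by
  obtain ⟨h1, h2, h3, h4, h5⟩ := h
  let g : GL (Fin 3) K := ⟨f K P, f K Q, by rw [← map_mul, h1, map_one],
    by rw [← map_mul, h2, map_one]⟩
  have k : ∀ Z : Matrix (Fin 3) (Fin 3) ℚ, inB g (f K Z) = f K (Q * Z * P) := fun Z => by
    rw [map_mul, map_mul]; rfl
  have t : ∀ M, tri M → ITri (f K M) := fun M h i j =>
    ⟨fun e => by
      show algebraMap ℚ K (M i j) = 0
      rw [(h i j).1 e, map_zero], fun e => (map_ne_zero (algebraMap ℚ K)).2 ((h i j).2 e)⟩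
  refine ⟨g, fun i j hij => ?_, by rw [k]; exact t _ h4, by rw [k]; exact t _ h5⟩
  rw [k]
  show algebraMap ℚ K ((Q * X * P) i j) = 0
  rw [h3 i j hij, map_zero]

open Pool.Agent.Lib.helper12.Idem Pool.Agent.Lib.helper12.Ladder

def A0 : Matrix (Fin 3) (Fin 3) ℚ := !![2, 0, 0; 1, 17/4, 0; 0, 1, 257/16]
def B0 : Matrix (Fin 3) (Fin 3) ℚ := !![257/16, 75/16, 0; 0, 17/4, 75/16; 0, 0, 2]
def C0 : Matrix (Fin 3) (Fin 3) ℚ := !![65/24, -75/8, 0; -1/8, 215/24, -75/2; 0, -1/2, 35/6]
def PA : Matrix (Fin 3) (Fin 3) ℚ := !![2025, 0, 0; -900, -189, 0; 64, 16, 1]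
def QA : Matrix (Fin 3) (Fin 3) ℚ := !![1/2025, 0, 0; -4/1701, -1/189, 0; 256/42525, 16/189, 1]
def PB : Matrix (Fin 3) (Fin 3) ℚ := !![1, -25, 25; 0, 63, -75; 0, 0, 36]
def QB : Matrix (Fin 3) (Fin 3) ℚ := !![1, 25/63, 25/189; 0, 1/63, 25/756; 0, 0, 1/36]
def PC : Matrix (Fin 3) (Fin 3) ℚ := !![225, -75, 25; 15, 5, -25; 2, 1, 2]
def QC : Matrix (Fin 3) (Fin 3) ℚ :=
  !![1/400, 1/80, 1/8; -1/175, 1/35, 3/7; 1/2800, -3/112, 9/56]

theorem c1 : ch PA QA A0 B0 C0 := by unfold ch tri; decide +kernel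
theorem c2 : ch PB QB B0 A0 C0 := by unfold ch tri; decide +kernel
theorem c3 : ch PC QC C0 A0 B0 := by unfold ch tri; decide +kernel

theorem irr [CharZero K] : ∀ W : Submodule K (Fin 3 → K), W.map (fK K 3 A0) ≤ W →
    W.map (fK K 3 B0) ≤ W → W = ⊥ ∨ W = ⊤ :=
  irred K A0 B0 ![[(1, [])], [(-2, []), (1, [true])],
      [(17/2, []), (-25/4, [true]), (1, [true, true])]]
    ![[(825741/316825, []), (-9828/12673, [true]), (12096/316825, [true, true])],
      [(-1360044/316825, []), (667548/316825, [true]), (-36288/316825, [true, true])],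
      [(5818176/7920625, []), (-145152/316825, [true]), (435456/7920625, [true, true])]]
    [(256/42525, [false, false]), (-64/1701, [false]), (2176/42525, [])]
    (fun i => Matrix.single i 0 1 * !![1, 25/63, 25/189; 0, 0, 0; 0, 0, 0])
    (fun j => Matrix.single 0 j 1)
    (by decide +kernel) (by decide +kernel) (by decide +kernel)

def eg (M P Q : Matrix (Fin 3) (Fin 3) ℚ) (l : Fin 3 → ℚ) : Prop :=
  P * Q = 1 ∧ Q * M = diagonal l * Q ∧ ∀ i j, l i = l j → i = j

theorem eigR [CharZero K] {M P Q : Matrix (Fin 3) (Fin 3) ℚ} {l : Fin 3 → ℚ} (h : eg M P Q l)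
    (u : Fin 3 → K) (θ : K) (hu : fK K 3 M u = θ • u) (h0 : u ≠ 0) :
    ∃ i s, s ≠ 0 ∧ ∀ k, u k = s * (P k i : K) := by
  have e : fK K 3 P (fK K 3 Q u) = u := by
    rw [← Module.End.mul_apply, ← map_mul, h.1, map_one]; rfl
  have e2 : fK K 3 (diagonal l) (fK K 3 Q u) = θ • fK K 3 Q u := by
    rw [← Module.End.mul_apply, ← map_mul, ← h.2.1, map_mul, Module.End.mul_apply, hu, map_smul]
  generalize fK K 3 Q u = w at e e2
  have e3 : ∀ j, (l j : K) * w j = θ * w j := fun j => by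
    have := congrFun e2 j
    rw [fK_apply, Finset.sum_eq_single j] at this
    · simpa using this
    · intro c _ hc; simp [Matrix.diagonal_apply_ne _ (Ne.symm hc)]
    · simp
  obtain ⟨i, hi⟩ := Function.ne_iff.1 (show w ≠ 0 from fun z => h0 (by rw [← e, z, map_zero]))
  have hi' : w i ≠ 0 := hi
  refine ⟨i, w i, hi', fun k => ?_⟩
  rw [← e, fK_apply, Finset.sum_eq_single i, mul_comm]
  · intro j _ hj
    by_contra hc
    have hw : w j ≠ 0 := fun z => hc (by rw [z, mul_zero])
    apply hj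
    apply h.2.2
    apply Rat.cast_injective (α := K)
    rw [mul_right_cancel₀ hw (e3 j), mul_right_cancel₀ hi' (e3 i)]
  · simp

theorem eigL [CharZero K] {M P Q : Matrix (Fin 3) (Fin 3) ℚ} {l : Fin 3 → ℚ} (h : eg Mᵀ Qᵀ Pᵀ l)
    (φ : (Fin 3 → K) →ₗ[K] K) (θ : K) (hu : ∀ w, φ (fK K 3 M w) = θ * φ w) (h0 : φ ≠ 0) :
    ∃ j s, s ≠ 0 ∧ ∀ (N : Matrix (Fin 3) (Fin 3) ℚ) (w : Fin 3 → K) i t,
      (∀ k, w k = t * (N k i : K)) → φ w = s * t * ((Q * N) j i : K) := by
  have ex : ∀ w : Fin 3 → K, φ w = ∑ k, w k * φ (Pi.single k 1) := fun w => by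
    conv_lhs => rw [pi_eq_sum_univ' w]
    simp [map_sum]
  obtain ⟨j, s, hs, hj⟩ := eigR h (fun k => φ (Pi.single k 1)) θ (by
    funext k
    rw [fK_apply, Pi.smul_apply, smul_eq_mul, ← hu, ex (fK K 3 M _)]
    refine Finset.sum_congr rfl fun c _ => ?_
    simp [fK_apply, Pi.single_apply]) (fun z => h0 (LinearMap.ext fun w => by
      rw [ex]
      exact Finset.sum_eq_zero fun k _ => by rw [congrFun z k]; simp))
  refine ⟨j, s, hs, fun N w i t hw => ?_⟩
  rw [ex]
  simp only [hj, hw, Matrix.mul_apply, Fin.sum_univ_three, transpose_apply]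
  push_cast
  ring

theorem chk : ∀ i j k l m n : Fin 3, (QA * PA) j i = 0 → (QB * PB) l k = 0 → (QC * PC) n m = 0 →
    (QA * PB) j k * (QB * PC) l m * (QC * PA) n i = (QA * PC) j m * (QB * PA) l i * (QC * PB) n k →
    (QA * PB) j k * (QB * PC) l m * (QC * PA) n i = 0 := by decide +kernel

theorem core [CharZero K] [IsAlgClosed K] (x y z : Module.End K (Fin 3 → K))
    (h1 : x * y - y * x = (2 : K) • x + (2 : K) • y)
    (h2 : y * z - z * y = (2 : K) • y + (2 : K) • z)
    (h3 : z * x - x * z = (2 : K) • z + (2 : K) • x) (a0 a1 a2 a3 b0 b1 b2 b3 c0 c1 c2 c3 : K)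
    (hA : fK K 3 A0 = a0 • 1 + a1 • x + a2 • y + a3 • (x * y))
    (hB : fK K 3 B0 = b0 • 1 + b1 • y + b2 • z + b3 • (y * z))
    (hC : fK K 3 C0 = c0 • 1 + c1 • z + c2 • x + c3 • (z * x)) : False := by
  classical
  have r1 : ∀ w, y (x w) = x (y w) - (2 : K) • x w - (2 : K) • y w := fun w => by
    have := LinearMap.congr_fun h1 w
    simp only [LinearMap.sub_apply, LinearMap.add_apply, LinearMap.smul_apply,
      Module.End.mul_apply] at this
    linear_combination (norm := module) -this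
  have r2 : ∀ w, y (z w) = z (y w) + (2 : K) • y w + (2 : K) • z w := fun w => by
    have := LinearMap.congr_fun h2 w
    simp only [LinearMap.sub_apply, LinearMap.add_apply, LinearMap.smul_apply,
      Module.End.mul_apply] at this
    linear_combination (norm := module) this
  have r3 : ∀ w, z (x w) = x (z w) + (2 : K) • z w + (2 : K) • x w := fun w => by
    have := LinearMap.congr_fun h3 w
    simp only [LinearMap.sub_apply, LinearMap.add_apply, LinearMap.smul_apply,
      Module.End.mul_apply] at this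
    linear_combination (norm := module) this
  obtain ⟨μ, v0, hv0, hv, z0⟩ : ∃ (μ : K) (v0 : Fin 3 → K), v0 ≠ 0 ∧ y v0 = μ • v0 ∧ z v0 = (-μ) • v0 := by
    obtain ⟨ν, hν⟩ := Module.End.exists_eigenvalue y
    obtain ⟨w0, hw, hw0⟩ := hν.exists_hasEigenvector
    rw [Module.End.mem_eigenspace_iff] at hw
    let u : ℕ → Fin 3 → K := fun k => Nat.rec w0 (fun k w => z w + (ν + 2 * k) • w) k
    have ud : ∀ k, u (k + 1) = z (u k) + (ν + 2 * k) • u k := fun k => rfl
    have hu : ∀ k, y (u k) = (ν + 2 * k) • u k := fun k => by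
      induction k with
      | zero => simpa using (show y (u 0) = ν • u 0 from hw)
      | succ k ih =>
        rw [ud, map_add, r2, map_smul, ih, map_smul]
        push_cast
        module
    have ex := not_all y _ (fun i j e => by
      have : (i : K) = j := by linear_combination (1 / 2 : K) * e
      exact_mod_cast this) u hu
    obtain ⟨m, hm⟩ : ∃ m, Nat.find ex = m + 1 :=
      Nat.exists_eq_succ_of_ne_zero fun e => hw0 (by
        have := Nat.find_spec ex
        rwa [e] at this)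
    have z1 : u (m + 1) = 0 := by rw [← hm]; exact Nat.find_spec ex
    refine ⟨_, u m, Nat.find_min ex (by omega), hu m, ?_⟩
    rw [ud] at z1
    linear_combination (norm := module) z1
  let v : ℕ → Fin 3 → K := fun k => Nat.rec v0 (fun k w => x w + (μ - 2 * k) • w) k
  have v00 : v 0 = v0 := rfl
  have vd : ∀ k, v (k + 1) = x (v k) + (μ - 2 * k) • v k := fun k => rfl
  have vs : ∀ k, x (v k) = v (k + 1) - (μ - 2 * k) • v k := fun k => by rw [vd]; module
  have hy : ∀ k, y (v k) = (μ - 2 * k) • v k := fun k => by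
    induction k with
    | zero => rw [v00]; simpa using hv
    | succ k ih =>
      rw [vd, map_add, r1, map_smul, ih, map_smul]
      push_cast
      module
  have hz : ∀ k, z (v (k + 1)) = (-(μ - 2 * (k + 1))) • v (k + 1) +
      (-4 * (k + 1) * (μ - k)) • v k := fun k => by
    induction k with
    | zero =>
      rw [vd, map_add, r3, map_smul, v00, z0, map_smul]
      push_cast
      module
    | succ k ih =>
      rw [vd (k + 1), map_add, r3, map_smul, ih, map_add, map_smul, map_smul, vs k]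
      push_cast
      module
  let θ : ℕ → K := fun k => a0 + a2 * (μ - 2 * k) - (a1 + a3 * (μ - 2 * k)) * (μ - 2 * k)
  let α : ℕ → K := fun k => a1 + a3 * (μ - 2 * k)
  let t : ℕ → K := fun k => b0 + b1 * (μ - 2 * k) - (b2 + b3 * (μ - 2 * k)) * (μ - 2 * k)
  let β : ℕ → K := fun k => (-4 * (k + 1) * (μ - k)) * (b2 + b3 * (μ - 2 * k))
  have eA : ∀ k, fK K 3 A0 (v k) = θ k • v k + α k • v (k + 1) := fun k => by
    rw [hA]
    simp only [LinearMap.add_apply, LinearMap.smul_apply, Module.End.mul_apply,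
      Module.End.one_apply, hy, map_smul, vs, θ, α]
    module
  have eB0 : fK K 3 B0 (v 0) = t 0 • v 0 := by
    rw [hB, v00]
    simp only [LinearMap.add_apply, LinearMap.smul_apply, Module.End.mul_apply,
      Module.End.one_apply, z0, map_smul, hv, t]
    push_cast
    module
  have eB : ∀ k, fK K 3 B0 (v (k + 1)) = t (k + 1) • v (k + 1) + β k • v k := fun k => by
    rw [hB]
    simp only [LinearMap.add_apply, LinearMap.smul_apply, Module.End.mul_apply,
      Module.End.one_apply, hz, map_add, hy, map_smul, t, β]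
    push_cast
    module
  obtain ⟨v3, v2, b, hb⟩ := ladder 2 (by simp) y _ _ (fun k => μ - 2 * k)
    (fun i j e => by
      have : (i : K) = j := by linear_combination (-1 / 2 : K) * e
      exact_mod_cast this) v hv0 hy θ α t β eA eB0 eB irr
  have m2 : μ = 2 := by
    have := hz 2
    rw [v3, map_zero, smul_zero, zero_add] at this
    have := (smul_eq_zero.1 this.symm).resolve_right v2
    push_cast at this
    linear_combination (-1 / 12 : K) * this
  have e0 : v 0 = b 0 := (hb 0).symm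
  have e1 : v 1 = b 1 := (hb 1).symm
  have e2 : v 2 = b 2 := (hb 2).symm
  have x0 := vs 0
  have x1 := vs 1
  have x2 := vs 2
  have z1 := hz 0
  have z2 := hz 1
  have A0' := eA 0
  have A1' := eA 1
  have A2' := eA 2
  have B1' := eB 0
  have B2' := eB 1
  rw [← v00] at z0
  simp only [zero_add, Nat.reduceAdd, e0, e1, e2, v3, m2, smul_zero, add_zero]
    at x0 x1 x2 z0 z1 z2 A0' A1' A2' eB0 B1' B2'
  replace x0 : x (b 0) = b 1 - (2 : K) • b 0 := by rw [x0]; push_cast; module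
  replace x1 : x (b 1) = b 2 := by rw [x1]; push_cast; module
  replace x2 : x (b 2) = (2 : K) • b 2 := by rw [x2]; push_cast; module
  replace z1 : z (b 1) = (-8 : K) • b 0 := by rw [z1]; push_cast; module
  replace z2 : z (b 2) = (2 : K) • b 2 - (8 : K) • b 1 := by rw [z2]; push_cast; module
  have ext3 : ∀ (φ : (Fin 3 → K) →ₗ[K] K) (T : Module.End K (Fin 3 → K)) (c : K),
      φ (T (b 0)) = c * φ (b 0) → φ (T (b 1)) = c * φ (b 1) → φ (T (b 2)) = c * φ (b 2) →
      ∀ w, φ (T w) = c * φ w := fun φ T c p0 p1 p2 w => by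
    have : φ ∘ₗ T = c • φ := b.ext fun i => by fin_cases i <;> simpa
    simpa using LinearMap.congr_fun this w
  let uC : Fin 3 → K := (8 : K) • b 0 - (4 : K) • b 1 + b 2
  let φC : (Fin 3 → K) →ₗ[K] K := b.coord 0 + (4 : K) • b.coord 1 + (8 : K) • b.coord 2
  have xu : x uC = (-2 : K) • uC := by
    simp only [uC, map_add, map_sub, map_smul, x0, x1, x2]; module
  have zu : z uC = (2 : K) • uC := by
    simp only [uC, map_add, map_sub, map_smul, z0, z1, z2]; module
  have φx := ext3 φC x 2 (by simp [φC, x0]; ring) (by simp [φC, x1]; ring) (by simp [φC, x2])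
  have φz := ext3 φC z (-2) (by simp [φC, z0]) (by simp [φC, z1]; ring) (by simp [φC, z2]; ring)
  obtain ⟨i, sA, hsA, uA⟩ := eigR (M := A0) (P := PA) (Q := QA) (l := ![2, 17/4, 257/16])
    (by unfold eg; decide +kernel) (b 2) _ A2' (b.ne_zero 2)
  obtain ⟨k, sB, hsB, uB⟩ := eigR (M := B0) (P := PB) (Q := QB) (l := ![257/16, 17/4, 2])
    (by unfold eg; decide +kernel) (b 0) _ eB0 (b.ne_zero 0)
  obtain ⟨m, sC, hsC, uC'⟩ := eigR (M := C0) (P := PC) (Q := QC) (l := ![25/12, 10/3, 145/12])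
    (by unfold eg; decide +kernel) uC (c0 + 2 * c1 - 2 * c2 - 4 * c3) (by
      rw [hC]
      simp only [LinearMap.add_apply, LinearMap.smul_apply, Module.End.mul_apply,
        Module.End.one_apply, xu, zu, map_smul]
      module) (fun e => by simpa [uC] using congrArg (b.coord 2) e)
  obtain ⟨j, tA, htA, fA⟩ := eigL (M := A0) (P := PA) (Q := QA) (l := ![2, 17/4, 257/16])
    (by unfold eg; decide +kernel) (b.coord 0) (θ 0)
    (ext3 _ _ _ (by simp [A0']) (by simp [A1']) (by simp [A2']))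
    (fun e => by simpa using LinearMap.congr_fun e (b 0))
  obtain ⟨l, tB, htB, fB⟩ := eigL (M := B0) (P := PB) (Q := QB) (l := ![257/16, 17/4, 2])
    (by unfold eg; decide +kernel) (b.coord 2) (t 2)
    (ext3 _ _ _ (by simp [eB0]) (by simp [B1']) (by simp [B2']))
    (fun e => by simpa using LinearMap.congr_fun e (b 2))
  obtain ⟨n, tC, htC, fC⟩ := eigL (M := C0) (P := PC) (Q := QC) (l := ![25/12, 10/3, 145/12])
    (by unfold eg; decide +kernel) φC (c0 - 2 * c1 + 2 * c2 - 4 * c3) (fun w => by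
      rw [hC]
      simp only [LinearMap.add_apply, LinearMap.smul_apply, Module.End.mul_apply,
        Module.End.one_apply, φx, φz, map_smul, map_add, smul_eq_mul]
      ring) (fun e => by simpa [φC] using LinearMap.congr_fun e (b 0))
  have aa := fA _ _ _ _ uA
  have ab := fA _ _ _ _ uB
  have ac := fA _ _ _ _ uC'
  have ba := fB _ _ _ _ uA
  have bb := fB _ _ _ _ uB
  have bc := fB _ _ _ _ uC'
  have ca := fC _ _ _ _ uA
  have cb := fC _ _ _ _ uB
  have cc := fC _ _ _ _ uC'
  simp [uC, φC] at aa ab ac ba bb bc ca cb cc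
  have S : sA * sB * sC * tA * tB * tC ≠ 0 := by simp [*]
  have key := chk i j k l m n (by simpa [htA, hsA] using aa) (by simpa [htB, hsB] using bb)
    (by
      have : tC * sC * ((QC * PC) n m : K) = 0 := by linear_combination -cc
      simpa [htC, hsC] using this)
    (by
      apply Rat.cast_injective (α := K)
      apply mul_left_cancel₀ S
      push_cast
      have L : sA * sB * sC * tA * tB * tC * (((QA * PB) j k : K) * ((QB * PC) l m : K) *
        ((QC * PA) n i : K)) = (tA * sB * ((QA * PB) j k : K)) * (tB * sC * ((QB * PC) l m : K))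
        * (tC * sA * ((QC * PA) n i : K)) := by ring
      have R : sA * sB * sC * tA * tB * tC * (((QA * PC) j m : K) * ((QB * PA) l i : K) *
        ((QC * PB) n k : K)) = (tA * sC * ((QA * PC) j m : K)) * (tB * sA * ((QB * PA) l i : K))
        * (tC * sB * ((QC * PB) n k : K)) := by ring
      rw [L, R, ← ab, ← bc, ← ca, ← ac, ← ba, ← cb]
      ring)
  rcases mul_eq_zero.1 key with h | h
  · rcases mul_eq_zero.1 h with h | h
    · rw [h] at ab; simp at ab
    · rw [h] at bc; simp at bc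
  · rw [h] at ca; simp at ca

theorem span4 {M a b c d : Matrix (Fin 3) (Fin 3) K} (h : M ∈ Submodule.span K {a, b, c, d}) :
    ∃ r s t u : K, M = r • a + s • b + t • c + u • d := by
  obtain ⟨r, _, h1, rfl⟩ := Submodule.mem_span_insert.1 h
  obtain ⟨s, _, h2, rfl⟩ := Submodule.mem_span_insert.1 h1
  obtain ⟨t, _, h3, rfl⟩ := Submodule.mem_span_insert.1 h2
  obtain ⟨u, rfl⟩ := Submodule.mem_span_singleton.1 h3
  exact ⟨r, s, t, u, by simp only [add_assoc]⟩

theorem result (K : Type) [Field K] [CharZero K] [IsAlgClosed K] :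
    ∃ A B C : Matrix (Fin 3) (Fin 3) K, LeonardPair A B ∧ LeonardTriple A B C ∧
      ∀ x y z : Matrix (Fin 3) (Fin 3) K, x * y - y * x = (2 : K) • x + (2 : K) • y →
        y * z - z * y = (2 : K) • y + (2 : K) • z → z * x - x * z = (2 : K) • z + (2 : K) • x →
        ¬ (A ∈ Submodule.span K {1, x, y, x * y} ∧ B ∈ Submodule.span K {1, y, z, y * z} ∧
          C ∈ Submodule.span K {1, z, x, z * x}) := by
  have t1 := third (K := K) c1
  have t2 := third (K := K) c2
  refine ⟨f K A0, f K B0, f K C0, ⟨t1.imp fun _ h => ⟨h.1, h.2.1⟩, t2.imp fun _ h => ⟨h.1, h.2.1⟩⟩,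
    ⟨t1, t2, third c3⟩, fun x y z h1 h2 h3 hc => ?_⟩
  obtain ⟨a0, a1, a2, a3, hA⟩ := span4 hc.1
  obtain ⟨b0, b1, b2, b3, hB⟩ := span4 hc.2.1
  obtain ⟨c0, c1, c2, c3, hC⟩ := span4 hc.2.2
  let ψ := Matrix.toLinAlgEquiv' (R := K) (n := Fin 3)
  have g : ∀ M, ψ (f K M) = fK K 3 M := fun M => rfl
  have k1 := congrArg ψ h1
  have k2 := congrArg ψ h2
  have k3 := congrArg ψ h3
  have k4 := congrArg ψ hA
  have k5 := congrArg ψ hB
  have k6 := congrArg ψ hC
  simp only [map_sub, map_add, map_mul, map_one, map_smul, g] at k1 k2 k3 k4 k5 k6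
  exact core _ _ _ k1 k2 k3 _ _ _ _ _ _ _ _ _ _ _ _ k4 k5 k6

end Pool.Agent.Results.MP_44ae8d_al.Flags
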